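import Mathlib

/-!
# `MP_c7e24e_co`: recombination of balanced partitions of biconnected graphs

For every natural number `C ≥ 1` there is a biconnected graph `G` on `n` vertices and a divisor
`k` of `n` such that the configuration space of the connected `k`-partitions with slack
`s = C · n/k` is disconnected.  For `C = 1` this answers the question negatively.

The graph: five hubs `0,…,4`, pairwise adjacent; independent leaves: `s+1` leaves adjacent to
`0,1`, `s+1` leaves adjacent to `1,2`, `s+1` leaves adjacent to `2,0`, and `7s+2` leaves adjacent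
to `3,4`.  There are `n = 10 (s+1)` vertices; let `k = 5 (s+1)`.
In every partition with `k` connected districts of sizes at most `n/k + s = s+2` each hub lies in
a district of its own of size exactly `s+2`, and all other districts are single leaves.  The
number of `01`-leaves in the district of hub `0` cannot be changed.
-/

namespace Pool.Agent.Results.MP_c7e24e_co.FrozenHubs

open Finset

section Defs

variable {V : Type*} [Fintype V] [DecidableEq V]

/-- `P` is a connected `k`-partition of `G`. -/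
def IsConnPartition (G : SimpleGraph V) (k : ℕ) (P : Finpartition (univ : Finset V)) : Prop :=
  P.parts.card = k ∧ ∀ U ∈ P.parts, (G.induce (U : Set V)).Connected

/-- `P` is a `(k,s)`-BCP of `G`: a connected `k`-partition, balanced with slack `s`. -/
def IsBCP (G : SimpleGraph V) (k : ℕ) (s : ℝ) (P : Finpartition (univ : Finset V)) : Prop :=
  IsConnPartition G k P ∧ ∀ U ∈ P.parts, |(U.card : ℝ) - (Fintype.card V : ℝ) / k| ≤ s

/-- The distinct partitions `P` and `Q` differ by a recombination move: two districts are merged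
and split again, all other districts stay fixed. -/
def Recomb (P Q : Finpartition (univ : Finset V)) : Prop :=
  P ≠ Q ∧ ∃ A ∈ P.parts, ∃ B ∈ P.parts, ∃ A' ∈ Q.parts, ∃ B' ∈ Q.parts,
    A ≠ B ∧ A' ≠ B' ∧ A ∪ B = A' ∪ B' ∧ P.parts \ {A, B} = Q.parts \ {A', B'}

/-- The configuration space `R_s(G,k)`. -/
def configSpace (G : SimpleGraph V) (k : ℕ) (s : ℝ) :
    SimpleGraph {P : Finpartition (univ : Finset V) // IsBCP G k s P} where
  Adj P Q := Recomb P.1 Q.1
  symm := ⟨by
    rintro P Q ⟨hne, A, hA, B, hB, A', hA', B', hB', h1, h2, h3, h4⟩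
    exact ⟨hne.symm, A', hA', B', hB', A, hA, B, hB, h2, h1, h3.symm, h4.symm⟩⟩
  loopless := ⟨fun _ h => h.1 rfl⟩

/-- `G` is biconnected: connected, at least three vertices, no cut vertex. -/
def Biconnected (G : SimpleGraph V) : Prop :=
  G.Connected ∧ 3 ≤ Fintype.card V ∧ ∀ v : V, (G.induce ({v}ᶜ : Set V)).Connected

end Defs

/-- The vertices: five hubs, five types of `s+1` leaves, and `5 s` further leaves. -/
abbrev Vt (s : ℕ) : Type := Fin 5 ⊕ (Fin 5 × Fin (s + 1)) ⊕ (Fin 5 × Fin s)

/-- The two hubs adjacent to a leaf of type `i`. -/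
def hs : Fin 5 → Finset (Fin 5) := ![{0, 1}, {1, 2}, {2, 0}, {3, 4}, {3, 4}]

/-- The hubs adjacent to a vertex. -/
def nb {s : ℕ} : Vt s → Finset (Fin 5)
  | .inl h => univ.erase h
  | .inr (.inl (i, _)) => hs i
  | .inr (.inr _) => {3, 4}

/-- The graph. -/
def Gr (s : ℕ) : SimpleGraph (Vt s) where
  Adj x y := (∃ h, x = .inl h ∧ h ∈ nb y) ∨ (∃ h, y = .inl h ∧ h ∈ nb x)
  symm := ⟨fun _ _ h => h.symm⟩
  loopless := ⟨by
    rintro x (⟨h, rfl, hx⟩ | ⟨h, rfl, hx⟩) <;> simp [nb] at hx⟩

variable {s : ℕ}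

theorem card_Vt : Fintype.card (Vt s) = 10 * (s + 1) := by
  simp only [Fintype.card_sum, Fintype.card_prod, Fintype.card_fin]
  ring

theorem hub_adj {h h' : Fin 5} (hh : h ≠ h') : (Gr s).Adj (.inl h) (.inl h') :=
  Or.inl ⟨h, rfl, by simp [nb, hh]⟩

/-- The graph induced on a set of vertices is connected if it contains a hub and each of its
leaves is adjacent to one of its hubs. -/
theorem conn_of (W : Set (Vt s)) (b : Fin 5) (hb : .inl b ∈ W)
    (hW : ∀ x ∈ W, (∀ h, x ≠ .inl h) → ∃ h ∈ nb x, .inl h ∈ W) :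
    ((Gr s).induce W).Connected := by
  rw [SimpleGraph.connected_iff_exists_forall_reachable]
  refine ⟨⟨.inl b, hb⟩, ?_⟩
  have hub : ∀ h (hh : (.inl h : Vt s) ∈ W),
      ((Gr s).induce W).Reachable ⟨.inl b, hb⟩ ⟨.inl h, hh⟩ := by
    intro h hh
    by_cases e : b = h
    · subst e; exact SimpleGraph.Reachable.refl _
    · apply SimpleGraph.Adj.reachable
      exact hub_adj e
  rintro ⟨x, hx⟩
  by_cases hc : ∃ h, x = .inl h
  · obtain ⟨h, rfl⟩ := hc
    exact hub h hx
  · push Not at hc
    obtain ⟨h, hh, hhW⟩ := hW x hx hc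
    refine (hub h hhW).trans (SimpleGraph.Adj.reachable ?_)
    exact Or.inl ⟨h, rfl, hh⟩

theorem exists_two (x : Vt s) : ∀ h : Fin 5, (∀ h', x ≠ .inl h') → ∃ h' ∈ nb x, h' ≠ h := by
  have key : ∀ i h : Fin 5, ∃ h' ∈ hs i, h' ≠ h := by decide
  have key2 : ∀ h : Fin 5, ∃ h' ∈ ({3, 4} : Finset (Fin 5)), h' ≠ h := by decide
  rcases x with a | ⟨i, j⟩ | p
  · intro h hx; exact absurd rfl (hx a)
  · intro h _; exact key i h
  · intro h _; exact key2 h

theorem biconn : Biconnected (Gr s) := by
  refine ⟨?_, by rw [card_Vt]; omega, ?_⟩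
  · have h := conn_of (s := s) Set.univ 0 (Set.mem_univ _) (by
      intro x _ hx
      obtain ⟨h', h1, -⟩ := exists_two x 0 hx
      exact ⟨h', h1, Set.mem_univ _⟩)
    exact (SimpleGraph.Iso.connected_iff (SimpleGraph.induceUnivIso (Gr s))).1 h
  · intro v
    have hb : ∃ b : Fin 5, (.inl b : Vt s) ≠ v := by
      rcases v with a | q
      · have : ∀ a : Fin 5, ∃ b : Fin 5, b ≠ a := by decide
        obtain ⟨b, hb⟩ := this a
        exact ⟨b, fun h => hb (Sum.inl.inj h)⟩
      · exact ⟨0, by simp⟩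
    obtain ⟨b, hb⟩ := hb
    refine conn_of _ b (by simpa using hb) ?_
    intro x _ hx
    rcases v with a | q
    · obtain ⟨h', h1, h2⟩ := exists_two x a hx
      exact ⟨h', h1, by simpa using h2⟩
    · obtain ⟨h', h1, -⟩ := exists_two x 0 hx
      exact ⟨h', h1, by simp⟩

/-! ### The structure of the balanced partitions -/

/-- Any vertex of a connected district with another vertex has a neighbour in the district. -/
theorem exists_nb {U : Finset (Vt s)} (hc : ((Gr s).induce (U : Set (Vt s))).Connected)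
    {x y : Vt s} (hx : x ∈ U) (hy : y ∈ U) (hxy : x ≠ y) : ∃ z ∈ U, (Gr s).Adj x z := by
  obtain ⟨w⟩ := hc.preconnected ⟨x, hx⟩ ⟨y, hy⟩
  cases w with
  | nil => exact absurd rfl hxy
  | cons h p => exact ⟨_, (Subtype.property _), h⟩

/-- the number of hubs in a set -/
def w (U : Finset (Vt s)) : ℕ := (univ.filter (fun h : Fin 5 => (.inl h : Vt s) ∈ U)).card

section

variable {P : Finpartition (univ : Finset (Vt s))}

theorem card_le_of_bcp (hP : IsBCP (Gr s) (5 * (s + 1)) s P) {U : Finset (Vt s)}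
    (hU : U ∈ P.parts) : U.card ≤ s + 2 := by
  have h := (abs_le.1 (hP.2 U hU)).2
  rw [card_Vt] at h
  have e : (((10 * (s + 1) : ℕ) : ℝ)) / ((5 * (s + 1) : ℕ) : ℝ) = 2 := by
    push_cast
    field_simp
    norm_num
  rw [e] at h
  have : (U.card : ℝ) ≤ ((s + 2 : ℕ) : ℝ) := by push_cast; linarith
  exact_mod_cast this

theorem card_le_w (hP : IsBCP (Gr s) (5 * (s + 1)) s P) {U : Finset (Vt s)}
    (hU : U ∈ P.parts) : U.card ≤ 1 + (s + 1) * w U := by
  rcases Nat.eq_zero_or_pos (w U) with h0 | h0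
  · rw [h0, Nat.mul_zero, Nat.add_zero, Finset.card_le_one]
    intro x hx y hy
    by_contra hxy
    have hno : ∀ h, (.inl h : Vt s) ∉ U := by
      intro h hh
      rw [w, Finset.card_eq_zero, Finset.filter_eq_empty_iff] at h0
      exact h0 (mem_univ h) hh
    obtain ⟨z, hz, hadj⟩ := exists_nb (hP.1.2 U hU) hx hy hxy
    rcases hadj with ⟨h, rfl, -⟩ | ⟨h, rfl, -⟩
    · exact hno h hx
    · exact hno h hz
  · have h1 := card_le_of_bcp hP hU
    have : s + 1 ≤ (s + 1) * w U := Nat.le_mul_of_pos_right _ h0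
    omega

theorem sum_w : ∑ U ∈ P.parts, w U = 5 := by
  have h1 : ∀ U ∈ P.parts, w U = ∑ h : Fin 5, if (.inl h : Vt s) ∈ U then 1 else 0 := by
    intro U _
    rw [w, Finset.card_filter]
  rw [Finset.sum_congr rfl h1, Finset.sum_comm]
  have h2 : ∀ h : Fin 5, (∑ U ∈ P.parts, if (.inl h : Vt s) ∈ U then 1 else 0) = 1 := by
    intro h
    rw [← Finset.card_filter, Finset.card_eq_one]
    refine ⟨P.part (.inl h), ?_⟩
    ext U
    simp only [mem_filter, mem_singleton]
    constructor
    · rintro ⟨hU, hm⟩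
      exact (P.part_eq_of_mem hU hm).symm
    · rintro rfl
      exact ⟨P.part_mem.2 (mem_univ _), P.mem_part (mem_univ _)⟩
  rw [Finset.sum_congr rfl (fun h _ => h2 h)]
  simp

theorem card_eq_w (hP : IsBCP (Gr s) (5 * (s + 1)) s P) :
    ∀ U ∈ P.parts, U.card = 1 + (s + 1) * w U := by
  have h1 : ∑ U ∈ P.parts, U.card = ∑ U ∈ P.parts, (1 + (s + 1) * w U) := by
    rw [P.sum_card_parts, Finset.sum_add_distrib, ← Finset.mul_sum, sum_w, Finset.card_univ,
      card_Vt, Finset.sum_const, hP.1.1]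
    simp only [smul_eq_mul]
    ring
  exact (Finset.sum_eq_sum_iff_of_le (fun U hU => card_le_w hP hU)).1 h1

theorem w_le_one (hP : IsBCP (Gr s) (5 * (s + 1)) s P) {U : Finset (Vt s)}
    (hU : U ∈ P.parts) : w U ≤ 1 := by
  have h1 := card_eq_w hP U hU
  have h2 := card_le_of_bcp hP hU
  by_contra hc
  have : (s + 1) * 2 ≤ (s + 1) * w U := Nat.mul_le_mul_left _ (by omega)
  omega

/-- the district of hub `h` -/
def D (P : Finpartition (univ : Finset (Vt s))) (h : Fin 5) : Finset (Vt s) := P.part (.inl h)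

theorem D_mem (h : Fin 5) : D P h ∈ P.parts := P.part_mem.2 (mem_univ _)

theorem hub_mem_D (h : Fin 5) : .inl h ∈ D P h := P.mem_part (mem_univ _)

theorem hub_unique (hP : IsBCP (Gr s) (5 * (s + 1)) s P) {U : Finset (Vt s)}
    (hU : U ∈ P.parts) {h h' : Fin 5} (hh : .inl h ∈ U) (hh' : .inl h' ∈ U) : h = h' := by
  have h1 := w_le_one hP hU
  rw [w, Finset.card_le_one] at h1
  exact h1 h (by simpa using hh) h' (by simpa using hh')

theorem D_card (hP : IsBCP (Gr s) (5 * (s + 1)) s P) (h : Fin 5) : (D P h).card = s + 2 := by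
  have h1 := card_eq_w hP _ (D_mem (P := P) h)
  have h2 := w_le_one hP (D_mem (P := P) h)
  have h3 : 0 < w (D P h) := by
    rw [w, Finset.card_pos]
    exact ⟨h, by simpa using hub_mem_D h⟩
  have : w (D P h) = 1 := by omega
  rw [this] at h1
  omega

theorem D_nb (hP : IsBCP (Gr s) (5 * (s + 1)) s P) {h : Fin 5} {x : Vt s} (hx : x ∈ D P h)
    (hne : x ≠ .inl h) : (∀ h', x ≠ .inl h') ∧ h ∈ nb x := by
  have h1 : ∀ h', x ≠ .inl h' := by
    rintro h' rfl
    have := hub_unique hP (D_mem h) hx (hub_mem_D h)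
    exact hne (by rw [this])
  refine ⟨h1, ?_⟩
  obtain ⟨z, hz, hadj⟩ := exists_nb (hP.1.2 _ (D_mem h)) hx (hub_mem_D h) hne
  rcases hadj with ⟨h', rfl, -⟩ | ⟨h', rfl, hh⟩
  · exact absurd rfl (h1 h')
  · rwa [hub_unique hP (D_mem h) (hub_mem_D h) hz]

theorem D_disj (hP : IsBCP (Gr s) (5 * (s + 1)) s P) {h h' : Fin 5} (hh : h ≠ h') :
    Disjoint (D P h) (D P h') := by
  apply P.disjoint (D_mem h) (D_mem h')
  intro he
  apply hh
  have h1 : (.inl h : Vt s) ∈ D P h' := by
    have := hub_mem_D (P := P) h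
    rwa [he] at this
  exact hub_unique hP (D_mem h') h1 (hub_mem_D h')

/-- the leaves of type `i` -/
def LT (s : ℕ) (i : Fin 5) : Finset (Vt s) := univ.image (fun j : Fin (s + 1) => .inr (.inl (i, j)))

theorem LT_card (i : Fin 5) : (LT s i).card = s + 1 := by
  rw [LT, Finset.card_image_of_injective, Finset.card_univ, Fintype.card_fin]
  intro j j' h
  simpa using h

theorem mem_LT {i : Fin 5} {x : Vt s} : x ∈ LT s i ↔ ∃ j, x = .inr (.inl (i, j)) := by
  simp only [LT, mem_image, mem_univ, true_and]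
  exact ⟨fun ⟨j, hj⟩ => ⟨j, hj.symm⟩, fun ⟨j, hj⟩ => ⟨j, hj.symm⟩⟩

theorem LT_disj {i i' : Fin 5} (h : i ≠ i') : Disjoint (LT s i) (LT s i') := by
  rw [Finset.disjoint_left]
  intro x hx hx'
  obtain ⟨j, rfl⟩ := mem_LT.1 hx
  obtain ⟨j', hj'⟩ := mem_LT.1 hx'
  simp only [Sum.inr.injEq, Sum.inl.injEq, Prod.mk.injEq] at hj'
  exact h hj'.1

/-- the number of leaves of type `i` in the district of hub `h` -/
def c (P : Finpartition (univ : Finset (Vt s))) (h i : Fin 5) : ℕ := (D P h ∩ LT s i).card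

/-- If the hub `h ≤ 2` is adjacent exactly to the leaves of types `i` and `i'`. -/
theorem c_add (hP : IsBCP (Gr s) (5 * (s + 1)) s P) {h i i' : Fin 5} (hii : i ≠ i')
    (hnb : ∀ t, h ∈ hs t → t = i ∨ t = i') (h34 : h ∉ ({3, 4} : Finset (Fin 5))) :
    s + 1 ≤ c P h i + c P h i' := by
  have h1 : D P h ⊆ insert (.inl h) ((D P h ∩ LT s i) ∪ (D P h ∩ LT s i')) := by
    intro x hx
    rw [mem_insert]
    by_cases hne : x = .inl h
    · exact Or.inl hne
    · right
      obtain ⟨h2, h3⟩ := D_nb hP hx hne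
      rcases x with a | ⟨t, j⟩ | p
      · exact absurd rfl (h2 a)
      · have : h ∈ hs t := h3
        rcases hnb t this with rfl | rfl
        · exact mem_union_left _ (mem_inter.2 ⟨hx, mem_LT.2 ⟨j, rfl⟩⟩)
        · exact mem_union_right _ (mem_inter.2 ⟨hx, mem_LT.2 ⟨j, rfl⟩⟩)
      · exact absurd h3 h34
  have h2 := Finset.card_le_card h1
  have h3 := Finset.card_insert_le (.inl h : Vt s) ((D P h ∩ LT s i) ∪ (D P h ∩ LT s i'))
  have h4 := Finset.card_union_le (D P h ∩ LT s i) (D P h ∩ LT s i')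
  have h5 := D_card hP h
  simp only [c]
  omega

theorem c_le (hP : IsBCP (Gr s) (5 * (s + 1)) s P) {h h' i : Fin 5} (hh : h ≠ h') :
    c P h i + c P h' i ≤ s + 1 := by
  have h1 : Disjoint (D P h ∩ LT s i) (D P h' ∩ LT s i) :=
    Finset.disjoint_of_subset_left inter_subset_left
      (Finset.disjoint_of_subset_right inter_subset_left (D_disj hP hh))
  have h2 : (D P h ∩ LT s i) ∪ (D P h' ∩ LT s i) ⊆ LT s i :=
    union_subset inter_subset_right inter_subset_right
  have h3 := Finset.card_le_card h2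
  rw [Finset.card_union_of_disjoint h1, LT_card] at h3
  exact h3

/-- The three diagonal counts agree. -/
theorem c_diag (hP : IsBCP (Gr s) (5 * (s + 1)) s P) :
    c P 0 0 = c P 1 1 ∧ c P 1 1 = c P 2 2 := by
  have a0 := c_add hP (h := 0) (i := 0) (i' := 2) (by decide) (by decide) (by decide)
  have a1 := c_add hP (h := 1) (i := 0) (i' := 1) (by decide) (by decide) (by decide)
  have a2 := c_add hP (h := 2) (i := 1) (i' := 2) (by decide) (by decide) (by decide)
  have b0 := c_le hP (h := 0) (h' := 1) (i := 0) (by decide)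
  have b1 := c_le hP (h := 1) (h' := 2) (i := 1) (by decide)
  have b2 := c_le hP (h := 0) (h' := 2) (i := 2) (by decide)
  omega

end

/-- A recombination move does not change the number of leaves of type `0` in the district of
hub `0`. -/
theorem move_inv {P Q : Finpartition (univ : Finset (Vt s))}
    (hP : IsBCP (Gr s) (5 * (s + 1)) s P) (hQ : IsBCP (Gr s) (5 * (s + 1)) s Q)
    (h : Recomb P Q) : c P 0 0 = c Q 0 0 := by
  obtain ⟨-, A, hA, B, hB, A', hA', B', hB', -, -, -, hrest⟩ := h
  have key : ∀ i : Fin 5, D P i ≠ A → D P i ≠ B → D P i = D Q i := by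
    intro i h1 h2
    have : D P i ∈ P.parts \ {A, B} := by
      rw [mem_sdiff]
      refine ⟨D_mem i, ?_⟩
      simp [h1, h2]
    rw [hrest, mem_sdiff] at this
    exact (Q.part_eq_of_mem this.1 (hub_mem_D i)).symm
  have n01 : D P 0 ≠ D P 1 := fun he => by
    have := D_disj hP (h := 0) (h' := 1) (by decide)
    rw [he, Finset.disjoint_self_iff_empty] at this
    have h1 := hub_mem_D (P := P) 1
    rw [this] at h1
    exact absurd h1 (Finset.notMem_empty _)
  have n02 : D P 0 ≠ D P 2 := fun he => by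
    have := D_disj hP (h := 0) (h' := 2) (by decide)
    rw [he, Finset.disjoint_self_iff_empty] at this
    have h1 := hub_mem_D (P := P) 2
    rw [this] at h1
    exact absurd h1 (Finset.notMem_empty _)
  have n12 : D P 1 ≠ D P 2 := fun he => by
    have := D_disj hP (h := 1) (h' := 2) (by decide)
    rw [he, Finset.disjoint_self_iff_empty] at this
    have h1 := hub_mem_D (P := P) 2
    rw [this] at h1
    exact absurd h1 (Finset.notMem_empty _)
  have dP := c_diag hP
  have dQ := c_diag hQ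
  have e : ∀ i, D P i = D Q i → c P i i = c Q i i := fun i hi => by simp only [c, hi]
  by_cases h0 : D P 0 = A ∨ D P 0 = B
  · by_cases h1 : D P 1 = A ∨ D P 1 = B
    · have h2 : ¬ (D P 2 = A ∨ D P 2 = B) := by
        rcases h0 with h0 | h0 <;> rcases h1 with h1 | h1
        · exact absurd (h0.trans h1.symm) n01
        · rintro (h | h)
          · exact n02 (h0.trans h.symm)
          · exact n12 (h1.trans h.symm)
        · rintro (h | h)
          · exact n12 (h1.trans h.symm)
          · exact n02 (h0.trans h.symm)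
        · exact absurd (h0.trans h1.symm) n01
      push Not at h2
      have := e 2 (key 2 h2.1 h2.2)
      omega
    · push Not at h1
      have := e 1 (key 1 h1.1 h1.2)
      omega
  · push Not at h0
    exact e 0 (key 0 h0.1 h0.2)

theorem reach_inv (P Q : {P : Finpartition (univ : Finset (Vt s)) //
      IsBCP (Gr s) (5 * (s + 1)) s P})
    (h : (configSpace (Gr s) (5 * (s + 1)) s).Reachable P Q) : c P.1 0 0 = c Q.1 0 0 := by
  obtain ⟨w⟩ := h
  induction w with
  | nil => rfl
  | cons h p ih => exact (move_inv (Subtype.property _) (Subtype.property _) h).trans ih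

/-! ### Two balanced partitions -/

/-- The district label of a vertex: leaves of type `i` go to hub `π i`. -/
def g (π : Equiv.Perm (Fin 5)) : Vt s → Fin 5 ⊕ (Fin 5 × Fin s)
  | .inl h => .inl h
  | .inr (.inl (i, _)) => .inl (π i)
  | .inr (.inr p) => .inr p

/-- the district with a given label -/
def fib (π : Equiv.Perm (Fin 5)) (l : Fin 5 ⊕ (Fin 5 × Fin s)) : Finset (Vt s) :=
  univ.filter (fun v => g π v = l)

theorem mem_fib {π : Equiv.Perm (Fin 5)} {l : Fin 5 ⊕ (Fin 5 × Fin s)} {v : Vt s} :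
    v ∈ fib π l ↔ g π v = l := by simp [fib]

theorem fib_nonempty (π : Equiv.Perm (Fin 5)) (l : Fin 5 ⊕ (Fin 5 × Fin s)) :
    (fib π l).Nonempty := by
  rcases l with h | p
  · exact ⟨.inl h, mem_fib.2 rfl⟩
  · exact ⟨.inr (.inr p), mem_fib.2 rfl⟩

/-- The partition into the districts of `π`. -/
def Pt (π : Equiv.Perm (Fin 5)) : Finpartition (univ : Finset (Vt s)) :=
  Finpartition.ofExistsUnique (univ.image (fib π)) (fun _ _ => subset_univ _)
    (by
      intro a _
      refine ⟨fib π (g π a), ⟨mem_image_of_mem _ (mem_univ _), mem_fib.2 rfl⟩, ?_⟩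
      rintro U ⟨hU, ha⟩
      obtain ⟨l, -, rfl⟩ := mem_image.1 hU
      rw [mem_fib.1 ha])
    (by
      intro h
      obtain ⟨l, -, hl⟩ := mem_image.1 h
      exact (fib_nonempty π l).ne_empty hl)

theorem mem_Pt {π : Equiv.Perm (Fin 5)} {U : Finset (Vt s)} :
    U ∈ (Pt (s := s) π).parts ↔ ∃ l, U = fib π l := by
  simp only [Pt, Finpartition.ofExistsUnique, mem_image, mem_univ, true_and]
  exact ⟨fun ⟨l, hl⟩ => ⟨l, hl.symm⟩, fun ⟨l, hl⟩ => ⟨l, hl.symm⟩⟩

theorem fib_inj (π : Equiv.Perm (Fin 5)) : Function.Injective (fib (s := s) π) := by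
  intro l l' h
  obtain ⟨v, hv⟩ := fib_nonempty π l
  have h1 := mem_fib.1 hv
  rw [h] at hv
  exact h1.symm.trans (mem_fib.1 hv)

theorem Pt_card (π : Equiv.Perm (Fin 5)) : (Pt (s := s) π).parts.card = 5 * (s + 1) := by
  simp only [Pt, Finpartition.ofExistsUnique]
  rw [Finset.card_image_of_injective _ (fib_inj π), Finset.card_univ]
  simp only [Fintype.card_sum, Fintype.card_prod, Fintype.card_fin]
  ring

theorem fib_hub (π : Equiv.Perm (Fin 5)) (h : Fin 5) :
    fib (s := s) π (.inl h) = insert (.inl h) (LT s (π.symm h)) := by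
  ext v
  rw [mem_fib, mem_insert, mem_LT]
  rcases v with a | ⟨i, j⟩ | p
  · simp [g]
  · simp only [g, Sum.inl.injEq, reduceCtorEq, Sum.inr.injEq, Prod.mk.injEq, false_or]
    constructor
    · intro e
      exact ⟨j, by rw [← e, Equiv.symm_apply_apply], rfl⟩
    · rintro ⟨_, e, -⟩
      rw [e, Equiv.apply_symm_apply]
  · simp [g]

theorem fib_single (π : Equiv.Perm (Fin 5)) (p : Fin 5 × Fin s) :
    fib (s := s) π (.inr p) = {.inr (.inr p)} := by
  ext v
  rw [mem_fib, mem_singleton]
  rcases v with a | ⟨i, j⟩ | q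
  · simp [g]
  · simp [g]
  · simp [g]

theorem Pt_bcp (hs1 : 1 ≤ s) (π : Equiv.Perm (Fin 5)) (hπ : ∀ i, π i ∈ hs i) :
    IsBCP (Gr s) (5 * (s + 1)) s (Pt (s := s) π) := by
  refine ⟨⟨Pt_card π, ?_⟩, ?_⟩
  · intro U hU
    obtain ⟨l, rfl⟩ := mem_Pt.1 hU
    rcases l with h | p
    · refine conn_of _ h (mem_coe.2 (mem_fib.2 rfl)) ?_
      intro x hx hx'
      refine ⟨h, ?_, mem_coe.2 (mem_fib.2 rfl)⟩
      have hx1 := mem_fib.1 (mem_coe.1 hx)
      rcases x with a | ⟨i, j⟩ | q
      · exact absurd rfl (hx' a)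
      · simp only [g, Sum.inl.injEq] at hx1
        rw [← hx1]
        exact hπ i
      · simp [g] at hx1
    · rw [SimpleGraph.connected_iff_exists_forall_reachable]
      refine ⟨⟨.inr (.inr p), mem_coe.2 (mem_fib.2 rfl)⟩, ?_⟩
      rintro ⟨x, hx⟩
      have : x = .inr (.inr p) := by
        rw [fib_single, coe_singleton] at hx
        exact hx
      subst this
      exact SimpleGraph.Reachable.refl _
  · intro U hU
    obtain ⟨l, rfl⟩ := mem_Pt.1 hU
    have e : ((Fintype.card (Vt s) : ℕ) : ℝ) / ((5 * (s + 1) : ℕ) : ℝ) = 2 := by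
      rw [card_Vt]
      push_cast
      field_simp
      norm_num
    rw [e]
    have hs1' : (1 : ℝ) ≤ s := by exact_mod_cast hs1
    rcases l with h | p
    · rw [fib_hub, Finset.card_insert_of_notMem, LT_card]
      · push_cast
        rw [abs_le]
        constructor <;> linarith
      · intro hm
        obtain ⟨j, hj⟩ := mem_LT.1 hm
        simp at hj
    · rw [fib_single, Finset.card_singleton]
      push_cast
      rw [abs_le]
      constructor <;> linarith

theorem c_Pt (π : Equiv.Perm (Fin 5)) :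
    c (Pt (s := s) π) 0 0 = if π 0 = 0 then s + 1 else 0 := by
  have hD : D (Pt (s := s) π) 0 = fib π (.inl 0) := by
    apply Finpartition.part_eq_of_mem _ (mem_Pt.2 ⟨_, rfl⟩) (mem_fib.2 rfl)
  rw [c, hD, fib_hub]
  split_ifs with h
  · have : π.symm 0 = 0 := by rw [Equiv.symm_apply_eq, h]
    rw [this]
    have h1 : insert (.inl 0) (LT s 0) ∩ LT s 0 = LT s 0 :=
      inter_eq_right.2 (subset_insert _ _)
    rw [h1, LT_card]
  · have hne : π.symm 0 ≠ 0 := by
      intro h'
      apply h
      rw [Equiv.symm_apply_eq] at h'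
      exact h'.symm
    rw [Finset.card_eq_zero, ← Finset.disjoint_iff_inter_eq_empty, Finset.disjoint_left]
    intro x hx hx'
    rcases mem_insert.1 hx with rfl | hx
    · obtain ⟨j, hj⟩ := mem_LT.1 hx'
      simp at hj
    · exact (Finset.disjoint_left.1 (LT_disj hne)) hx hx'

/-- The cyclic permutation `0 → 1 → 2 → 0`. -/
def rot : Equiv.Perm (Fin 5) where
  toFun := ![1, 2, 0, 3, 4]
  invFun := ![2, 0, 1, 3, 4]
  left_inv := by decide
  right_inv := by decide

theorem not_conn (hs1 : 1 ≤ s) : ¬ (configSpace (Gr s) (5 * (s + 1)) s).Preconnected := by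
  intro h
  have h1 := reach_inv _ _ (h ⟨Pt 1, Pt_bcp hs1 1 (by decide)⟩ ⟨Pt rot, Pt_bcp hs1 rot (by decide)⟩)
  simp only at h1
  rw [c_Pt, c_Pt, if_pos (by decide), if_neg (by decide)] at h1
  omega

/-- **Main result.** For every natural number `C ≥ 1` there are a biconnected graph `G` on `n`
vertices and a positive integer `k` dividing `n` such that the configuration space `R_s(G,k)` with
slack `s = C · n/k` is disconnected.  Consequently (case `C = 1`) it is not true that for every
biconnected graph, every `k` and every slack `s ≥ n/k` the configuration space is connected. -/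
theorem result :
    (∀ C : ℕ, 1 ≤ C → ∃ (V : Type) (_ : Fintype V) (_ : DecidableEq V) (G : SimpleGraph V)
      (k : ℕ), 1 ≤ k ∧ k ∣ Fintype.card V ∧ Biconnected G ∧
        ¬ (configSpace G k ((C : ℝ) * ((Fintype.card V : ℝ) / k))).Preconnected) ∧
    ¬ (∀ (V : Type) (_ : Fintype V) (_ : DecidableEq V) (G : SimpleGraph V) (k : ℕ) (s : ℝ),
      Biconnected G → 1 ≤ k → k ≤ Fintype.card V → (Fintype.card V : ℝ) / k ≤ s →
        (configSpace G k s).Preconnected) := by
  have main : ∀ C : ℕ, 1 ≤ C →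
      ¬ (configSpace (Gr (2 * C)) (5 * (2 * C + 1))
        ((C : ℝ) * ((Fintype.card (Vt (2 * C)) : ℝ) / (5 * (2 * C + 1) : ℕ)))).Preconnected := by
    intro C hC
    have h := not_conn (s := 2 * C) (by omega)
    have e : (C : ℝ) * ((Fintype.card (Vt (2 * C)) : ℝ) / (5 * (2 * C + 1) : ℕ))
        = ((2 * C : ℕ) : ℝ) := by
      rw [card_Vt]
      push_cast
      field_simp
      norm_num
    rw [e]
    exact h
  refine ⟨fun C hC => ⟨Vt (2 * C), inferInstance, inferInstance, Gr (2 * C), 5 * (2 * C + 1),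
    by omega, ?_, biconn, main C hC⟩, fun h => ?_⟩
  · rw [card_Vt]
    exact ⟨2, by ring⟩
  · have h1 := main 1 le_rfl
    apply h1
    apply h _ _ _ _ _ _ biconn (by omega)
    · rw [card_Vt]; omega
    · push_cast
      rw [one_mul]

end Pool.Agent.Results.MP_c7e24e_co.FrozenHubs
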